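import Pool.Agent.Lib_helper52.LQ.Defs
import Pool.Agent.Lib_helper16.LQ.R2
import Pool.Agent.Lib_helper86.LQ.R3
import Pool.Agent.Lib_helper58.LQ.LB

set_option autoImplicit false

namespace Pool.Agent.LQ

open MeasureTheory ENNReal Set Filter Topology Pool.Agent.EPS Pool.Agent.YG

variable {d : ℕ}

/-- bounded measurable functions on any space -/
def ld_B {Ω : Type} [MeasurableSpace Ω] (f : Ω → ℝ) : Prop :=
  Measurable f ∧ ∃ C : ℝ, ∀ p, |f p| ≤ C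

theorem ld_B.add {Ω : Type} [MeasurableSpace Ω] {f g : Ω → ℝ} (hf : ld_B f) (hg : ld_B g) :
    ld_B (fun p => f p + g p) := by
  obtain ⟨h1, C, hC⟩ := hf
  obtain ⟨h2, D, hD⟩ := hg
  exact ⟨h1.add h2, C + D, fun p => (abs_add_le _ _).trans (add_le_add (hC p) (hD p))⟩

theorem ld_B.sub {Ω : Type} [MeasurableSpace Ω] {f g : Ω → ℝ} (hf : ld_B f) (hg : ld_B g) :
    ld_B (fun p => f p - g p) := by
  obtain ⟨h1, C, hC⟩ := hf
  obtain ⟨h2, D, hD⟩ := hg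
  exact ⟨h1.sub h2, C + D, fun p => (abs_sub _ _).trans (add_le_add (hC p) (hD p))⟩

theorem ld_B.mul {Ω : Type} [MeasurableSpace Ω] {f g : Ω → ℝ} (hf : ld_B f) (hg : ld_B g) :
    ld_B (fun p => f p * g p) := by
  obtain ⟨h1, C, hC⟩ := hf
  obtain ⟨h2, D, hD⟩ := hg
  refine ⟨h1.mul h2, C * D, fun p => ?_⟩
  rw [abs_mul]
  exact mul_le_mul (hC p) (hD p) (abs_nonneg _) ((abs_nonneg _).trans (hC p))

theorem ld_B.cst {Ω : Type} [MeasurableSpace Ω] (c : ℝ) : ld_B (fun _ : Ω => c) :=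
  ⟨measurable_const, |c|, fun _ => le_rfl⟩

theorem ld_B.comp {Ω Ω' : Type} [MeasurableSpace Ω] [MeasurableSpace Ω'] {f : Ω → ℝ}
    (hf : ld_B f) {u : Ω' → Ω} (hu : Measurable u) : ld_B (fun p => f (u p)) := by
  obtain ⟨h1, C, hC⟩ := hf
  exact ⟨h1.comp hu, C, fun p => hC (u p)⟩

theorem ld_B.int {Ω : Type} [MeasurableSpace Ω] {f : Ω → ℝ} (hf : ld_B f) (μ : Measure Ω)
    [IsFiniteMeasure μ] : Integrable f μ := by
  obtain ⟨h1, C, hC⟩ := hf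
  exact Integrable.of_bound h1.aestronglyMeasurable C
    (Eventually.of_forall fun p => by rw [Real.norm_eq_abs]; exact hC p)

theorem ld_tri (α β γ : Measure (Eu d)) [IsProbabilityMeasure α] [IsProbabilityMeasure β]
    [IsProbabilityMeasure γ] (F : Eu d × Eu d × Eu d → ℝ) (hF : ld_B F) :
    ∫ p, F p ∂(α.prod (β.prod γ)) = ∫ x, ∫ z, ∫ y, F (x, (y, z)) ∂β ∂γ ∂α := by
  rw [integral_prod _ (hF.int _)]
  refine integral_congr_ae (Eventually.of_forall fun x => ?_)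
  have h : ld_B (fun q : Eu d × Eu d => F (x, q)) := hF.comp measurable_prodMk_left
  exact integral_prod_symm _ (h.int _)

theorem ld_x (α : Measure (Eu d)) [IsProbabilityMeasure α] {Ω : Type} [MeasurableSpace Ω]
    (ν : Measure Ω) [IsProbabilityMeasure ν] (g : Ω → ℝ) :
    ∫ p, g p.2 ∂(α.prod ν) = ∫ q, g q ∂ν := by
  rw [integral_fun_snd]; simp

theorem ld_y (α : Measure (Eu d)) [IsProbabilityMeasure α] {Ω : Type} [MeasurableSpace Ω]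
    (ν : Measure Ω) [IsProbabilityMeasure ν] (g : Ω → ℝ) :
    ∫ p, g p.1 ∂(ν.prod α) = ∫ q, g q ∂ν := by
  rw [integral_fun_fst]; simp

/-- functions of `(x, z)` -/
theorem ld_xz (α β γ : Measure (Eu d)) [IsProbabilityMeasure α] [IsProbabilityMeasure β]
    [IsProbabilityMeasure γ] (G : Eu d × Eu d → ℝ) (hG : ld_B G) :
    ∫ p : Eu d × Eu d × Eu d, G (p.1, p.2.2) ∂(α.prod (β.prod γ)) = ∫ q, G q ∂(α.prod γ) := by
  have m1 : Measurable (fun p : Eu d × Eu d × Eu d => (p.1, p.2.2)) := by fun_prop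
  rw [ld_tri α β γ _ (hG.comp m1), integral_prod _ (hG.int _)]
  simp

theorem ld_zero (α β γ : Measure (Eu d)) [IsProbabilityMeasure α] [IsProbabilityMeasure β]
    [IsProbabilityMeasure γ] (l : Eu d → ℝ) (hl : ld_B l) (h0 : ∫ y, l y ∂β = 0)
    (G : Eu d × Eu d → ℝ) (hG : ld_B G) :
    ∫ p : Eu d × Eu d × Eu d, l p.2.1 * G (p.1, p.2.2) ∂(α.prod (β.prod γ)) = 0 := by
  have m1 : Measurable (fun p : Eu d × Eu d × Eu d => (p.1, p.2.2)) := by fun_prop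
  have m2 : Measurable (fun p : Eu d × Eu d × Eu d => p.2.1) := by fun_prop
  rw [ld_tri α β γ _ ((hl.comp m2).mul (hG.comp m1))]
  have e : ∀ x z : Eu d, ∫ y, l y * G (x, z) ∂β = 0 := fun x z => by
    rw [integral_mul_const, h0, zero_mul]
  simp only [e, integral_zero]

theorem ld_mean (α β γ : Measure (Eu d)) [IsProbabilityMeasure α] [IsProbabilityMeasure β]
    [IsProbabilityMeasure γ] (c κ : Eu d → ℝ) (hc : ld_B c) (hκ : ld_B κ)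
    (G : Eu d × Eu d → ℝ) (hG : ld_B G) :
    ∫ p : Eu d × Eu d × Eu d, (c p.2.2 - κ (p.2.1 + p.2.2)) * G (p.1, p.2.2)
      ∂(α.prod (β.prod γ)) =
    ∫ p : Eu d × Eu d × Eu d, (c p.2.2 - ad β κ p.2.2) * G (p.1, p.2.2)
      ∂(α.prod (β.prod γ)) := by
  have m1 : Measurable (fun p : Eu d × Eu d × Eu d => (p.1, p.2.2)) := by fun_prop
  have m3 : Measurable (fun p : Eu d × Eu d × Eu d => p.2.2) := by fun_prop
  have m4 : Measurable (fun p : Eu d × Eu d × Eu d => p.2.1 + p.2.2) := by fun_prop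
  obtain ⟨hκ1, C, hC⟩ := id hκ
  have had : ld_B (ad β κ) := ⟨(ad_bm β κ hκ1 C hC).1, C, (ad_bm β κ hκ1 C hC).2⟩
  rw [ld_tri α β γ _ (((hc.comp m3).sub (hκ.comp m4)).mul (hG.comp m1)),
    ld_tri α β γ _ (((hc.comp m3).sub (had.comp m3)).mul (hG.comp m1))]
  refine integral_congr_ae (Eventually.of_forall fun x => ?_)
  refine integral_congr_ae (Eventually.of_forall fun z => ?_)
  have hy : ld_B (fun y : Eu d => κ (y + z)) := hκ.comp (measurable_id.add_const z)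
  have e : ∫ y, (c z - κ (y + z)) ∂β = c z - ad β κ z := by
    rw [integral_sub ((ld_B.cst (c z)).int β) (hy.int β)]
    simp [ad]
  calc ∫ y, (c z - κ (y + z)) * G (x, z) ∂β = (∫ y, (c z - κ (y + z)) ∂β) * G (x, z) :=
        integral_mul_const _ _
    _ = (c z - ad β κ z) * G (x, z) := by rw [e]
    _ = ∫ y, (c z - ad β κ z) * G (x, z) ∂β := by simp

/-- expansion of a square -/
theorem ld_sq {Ω : Type} [MeasurableSpace Ω] (μ : Measure Ω) [IsFiniteMeasure μ] (f g : Ω → ℝ)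
    (hf : ld_B f) (hg : ld_B g) (t : ℝ) :
    ∫ p, (f p + t * g p) ^ 2 ∂μ =
      ∫ p, f p * f p ∂μ + 2 * t * ∫ p, f p * g p ∂μ + t ^ 2 * ∫ p, g p * g p ∂μ := by
  have h1 := (hf.mul hf).int μ
  have h2 := ((hf.mul hg).int μ).const_mul (2 * t)
  have h3 := ((hg.mul hg).int μ).const_mul (t ^ 2)
  have e1 : ∫ p, (f p + t * g p) ^ 2 ∂μ =
      ∫ p, ((f p * f p + 2 * t * (f p * g p)) + t ^ 2 * (g p * g p)) ∂μ :=
    integral_congr_ae (Eventually.of_forall fun p => by simp only; ring)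
  have e2 : ∫ p, ((f p * f p + 2 * t * (f p * g p)) + t ^ 2 * (g p * g p)) ∂μ =
      ∫ p, (f p * f p + 2 * t * (f p * g p)) ∂μ + ∫ p, t ^ 2 * (g p * g p) ∂μ :=
    integral_add (h1.add h2) h3
  have e3 : ∫ p, (f p * f p + 2 * t * (f p * g p)) ∂μ =
      ∫ p, f p * f p ∂μ + ∫ p, 2 * t * (f p * g p) ∂μ := integral_add h1 h2
  rw [e1, e2, e3, integral_const_mul, integral_const_mul]

theorem ld_subl {Ω : Type} [MeasurableSpace Ω] (μ : Measure Ω) [IsFiniteMeasure μ]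
    (f f' g : Ω → ℝ) (hf : ld_B f) (hf' : ld_B f') (hg : ld_B g) :
    ∫ p, (f p - f' p) * g p ∂μ = ∫ p, f p * g p ∂μ - ∫ p, f' p * g p ∂μ := by
  rw [← integral_sub ((hf.mul hg).int μ) ((hf'.mul hg).int μ)]
  refine integral_congr_ae (Eventually.of_forall fun p => ?_)
  simp only
  ring

theorem ld_subr {Ω : Type} [MeasurableSpace Ω] (μ : Measure Ω) [IsFiniteMeasure μ]
    (f g g' : Ω → ℝ) (hf : ld_B f) (hg : ld_B g) (hg' : ld_B g') :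
    ∫ p, f p * (g p - g' p) ∂μ = ∫ p, f p * g p ∂μ - ∫ p, f p * g' p ∂μ := by
  rw [← integral_sub ((hf.mul hg).int μ) ((hf.mul hg').int μ)]
  refine integral_congr_ae (Eventually.of_forall fun p => ?_)
  simp only
  ring

theorem ld_comm {Ω : Type} [MeasurableSpace Ω] (μ : Measure Ω) (f g : Ω → ℝ) :
    ∫ p, f p * g p ∂μ = ∫ p, g p * f p ∂μ := by
  simp only [mul_comm]

/-- Bessel: `0 ≤ ∫ (e + t ζ)²`, `e = y° - lW w`, `ζ = (z° - κ (y + z)) - (m z - ρ (x + z))`,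
`m = z° - ad β κ`. `∫ e² = q`, `∫ e ζ = -b` (`l_bb`, `tri_u`, `tri_v`, independence),
`∫ ζ² = b - c` (the mixed term: integrate over `y` first, `∫ (z° - κ (y + z)) dβ(y) = m z`). -/
theorem l_bes (L : ℝ) (hL : 0 ≤ L) (α β γ : Measure (Eu d)) [IsProbabilityMeasure α]
    (hβ : Sp L β) (hγ : Sp L γ) (j : Fin d) (κ ρ lW : Eu d → ℝ) (hκ : Rg β γ (co L γ j) κ)
    (hρ : Rg α γ (fun z => co L γ j z - ad β κ z) ρ)
    (hW : Rg (α.conv γ) β (co L β j) lW) (t : ℝ) :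
    2 * t * ((∫ z, co L γ j z ^ 2 ∂γ) - ∫ v, κ v ^ 2 ∂(β.conv γ)) -
      t ^ 2 * (((∫ z, co L γ j z ^ 2 ∂γ) - ∫ v, κ v ^ 2 ∂(β.conv γ)) -
        ((∫ z, (co L γ j z - ad β κ z) ^ 2 ∂γ) - ∫ u, ρ u ^ 2 ∂(α.conv γ))) ≤
      (∫ y, co L β j y ^ 2 ∂β) - ∫ w, lW w ^ 2 ∂((α.conv γ).conv β) := by
  have : IsProbabilityMeasure β := hβ.1.1
  have : IsProbabilityMeasure γ := hγ.1.1
  obtain ⟨cβm, cβb, cβ0, -⟩ := co_bd L hL β j
  obtain ⟨cγm, cγb, cγ0, -⟩ := co_bd L hL γ j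
  have Bβ : ld_B (co L β j) := ⟨cβm, 2 * L, cβb⟩
  have Bγ : ld_B (co L γ j) := ⟨cγm, 2 * L, cγb⟩
  have Bκ : ld_B κ := ⟨hκ.meas, 2 * L, hκ.bd _ cγb⟩
  have BW : ld_B lW := ⟨hW.meas, 2 * L, hW.bd _ cβb⟩
  have had := ad_bm β κ hκ.meas (2 * L) (hκ.bd _ cγb)
  have Bad : ld_B (ad β κ) := ⟨had.1, 2 * L, had.2⟩
  have Bm1 : ld_B (fun z => co L γ j z - ad β κ z) := Bγ.sub Bad
  have Bρ : ld_B ρ := by
    obtain ⟨h1, C, hC⟩ := Bm1
    exact ⟨hρ.meas, C, hρ.bd _ hC⟩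
  set m : Eu d → ℝ := fun z => co L γ j z - ad β κ z with hm
  set μ : Measure (Eu d × Eu d × Eu d) := α.prod (β.prod γ) with hμ
  have m1 : Measurable (fun p : Eu d × Eu d × Eu d => (p.1, p.2.2)) := by fun_prop
  have mx : Measurable (fun p : Eu d × Eu d × Eu d => p.1) := by fun_prop
  have my : Measurable (fun p : Eu d × Eu d × Eu d => p.2.1) := by fun_prop
  have mz : Measurable (fun p : Eu d × Eu d × Eu d => p.2.2) := by fun_prop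
  have mv : Measurable (fun p : Eu d × Eu d × Eu d => p.2.1 + p.2.2) := by fun_prop
  have mu : Measurable (fun p : Eu d × Eu d × Eu d => p.1 + p.2.2) := by fun_prop
  have mw : Measurable (fun p : Eu d × Eu d × Eu d => p.1 + p.2.1 + p.2.2) := by fun_prop
  -- the six functions
  have B1 : ld_B (fun p : Eu d × Eu d × Eu d => co L β j p.2.1) := Bβ.comp my
  have B2 : ld_B (fun p : Eu d × Eu d × Eu d => lW (p.1 + p.2.1 + p.2.2)) := BW.comp mw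
  have B3 : ld_B (fun p : Eu d × Eu d × Eu d => co L γ j p.2.2) := Bγ.comp mz
  have B4 : ld_B (fun p : Eu d × Eu d × Eu d => κ (p.2.1 + p.2.2)) := Bκ.comp mv
  have B5 : ld_B (fun p : Eu d × Eu d × Eu d => m p.2.2) := Bm1.comp mz
  have B6 : ld_B (fun p : Eu d × Eu d × Eu d => ρ (p.1 + p.2.2)) := Bρ.comp mu
  have BG : ld_B (fun q : Eu d × Eu d => m q.2 - ρ (q.1 + q.2)) :=
    (Bm1.comp measurable_snd).sub (Bρ.comp (measurable_fst.add measurable_snd))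
  -- integral of e ^ 2
  have I11 : ∫ p : Eu d × Eu d × Eu d, co L β j p.2.1 * co L β j p.2.1 ∂μ =
      ∫ y, co L β j y ^ 2 ∂β := by
    rw [hμ, ld_x α (β.prod γ) (fun q => co L β j q.1 * co L β j q.1),
      ld_y γ β (fun y => co L β j y * co L β j y)]
    simp only [sq]
  have I12 : ∫ p : Eu d × Eu d × Eu d, co L β j p.2.1 * lW (p.1 + p.2.1 + p.2.2) ∂μ =
      ∫ w, lW w ^ 2 ∂((α.conv γ).conv β) := by
    rw [hμ, tri_wy α β γ (co L β j) lW lW Bβ hW BW]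
    simp only [sq]
  have I22 : ∫ p : Eu d × Eu d × Eu d, lW (p.1 + p.2.1 + p.2.2) * lW (p.1 + p.2.1 + p.2.2) ∂μ =
      ∫ w, lW w ^ 2 ∂((α.conv γ).conv β) := by
    have h := tri_w α β γ (fun w => lW w * lW w) (BW.mul BW)
    rw [hμ, h.1, h.2]
    simp only [sq]
  have Iee : ∫ p : Eu d × Eu d × Eu d, (co L β j p.2.1 - lW (p.1 + p.2.1 + p.2.2)) *
      (co L β j p.2.1 - lW (p.1 + p.2.1 + p.2.2)) ∂μ =
      (∫ y, co L β j y ^ 2 ∂β) - ∫ w, lW w ^ 2 ∂((α.conv γ).conv β) := by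
    rw [ld_subl μ _ _ _ B1 B2 (B1.sub B2), ld_subr μ _ _ _ B1 B1 B2, ld_subr μ _ _ _ B2 B1 B2,
      ld_comm μ (fun p : Eu d × Eu d × Eu d => lW (p.1 + p.2.1 + p.2.2))
        (fun p => co L β j p.2.1), I11, I12, I22]
    ring
  -- integral of e ζ
  obtain ⟨lV, hV⟩ := rg_ex γ β (co L β j) Bβ
  have hbb := (l_bb L hL β γ hβ hγ j κ lV hκ hV).2
  have J1 : ∫ p : Eu d × Eu d × Eu d, co L β j p.2.1 * co L γ j p.2.2 ∂μ = 0 :=
    ld_zero α β γ _ Bβ cβ0 (fun q => co L γ j q.2) (Bγ.comp measurable_snd)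
  have J2 : ∫ p : Eu d × Eu d × Eu d, co L β j p.2.1 * κ (p.2.1 + p.2.2) ∂μ =
      (∫ z, co L γ j z ^ 2 ∂γ) - ∫ v, κ v ^ 2 ∂(β.conv γ) := by
    rw [hμ, ld_x α (β.prod γ) (fun q => co L β j q.1 * κ (q.1 + q.2)), hbb]
  have J3 : ∫ p : Eu d × Eu d × Eu d, co L β j p.2.1 * (m p.2.2 - ρ (p.1 + p.2.2)) ∂μ = 0 :=
    ld_zero α β γ _ Bβ cβ0 _ BG
  have J4 : ∫ p : Eu d × Eu d × Eu d, lW (p.1 + p.2.1 + p.2.2) *
      (co L γ j p.2.2 - κ (p.2.1 + p.2.2)) ∂μ = 0 := by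
    have hF : ld_B (fun q : Eu d × Eu d => lW (q.2 + q.1)) :=
      BW.comp (measurable_snd.add measurable_fst)
    obtain ⟨hF1, C, hC⟩ := id hF
    have h := tri_v α β γ (co L γ j) κ Bγ hκ (fun q => lW (q.2 + q.1)) hF1 C hC
    rw [ld_subr μ _ _ _ B2 B3 B4, sub_eq_zero,
      ld_comm μ _ (fun p : Eu d × Eu d × Eu d => co L γ j p.2.2),
      ld_comm μ _ (fun p : Eu d × Eu d × Eu d => κ (p.2.1 + p.2.2))]
    simp only [← add_assoc] at h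
    exact h
  have J5 : ∫ p : Eu d × Eu d × Eu d, lW (p.1 + p.2.1 + p.2.2) *
      (m p.2.2 - ρ (p.1 + p.2.2)) ∂μ = 0 := by
    have hF : ld_B (fun q : Eu d × Eu d => lW (q.1 + q.2)) :=
      BW.comp (measurable_fst.add measurable_snd)
    obtain ⟨hF1, C, hC⟩ := id hF
    have h := tri_u α β γ m ρ Bm1 hρ (fun q => lW (q.1 + q.2)) hF1 C hC
    rw [ld_subr μ _ _ _ B2 B5 B6, sub_eq_zero,
      ld_comm μ _ (fun p : Eu d × Eu d × Eu d => m p.2.2),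
      ld_comm μ _ (fun p : Eu d × Eu d × Eu d => ρ (p.1 + p.2.2))]
    simp only [add_right_comm] at h ⊢
    exact h
  have Iez : ∫ p : Eu d × Eu d × Eu d, (co L β j p.2.1 - lW (p.1 + p.2.1 + p.2.2)) *
      ((co L γ j p.2.2 - κ (p.2.1 + p.2.2)) - (m p.2.2 - ρ (p.1 + p.2.2))) ∂μ =
      - ((∫ z, co L γ j z ^ 2 ∂γ) - ∫ v, κ v ^ 2 ∂(β.conv γ)) := by
    rw [ld_subl μ _ _ _ B1 B2 ((B3.sub B4).sub (B5.sub B6)),
      ld_subr μ _ _ _ B1 (B3.sub B4) (B5.sub B6), ld_subr μ _ _ _ B2 (B3.sub B4) (B5.sub B6),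
      ld_subr μ _ _ _ B1 B3 B4, J1, J2, J3, J4, J5]
    ring
  -- integral of ζ ^ 2
  have K1 : ∫ p : Eu d × Eu d × Eu d, co L γ j p.2.2 * co L γ j p.2.2 ∂μ =
      ∫ z, co L γ j z ^ 2 ∂γ := by
    rw [hμ, ld_x α (β.prod γ) (fun q => co L γ j q.2 * co L γ j q.2),
      ld_x β γ (fun z => co L γ j z * co L γ j z)]
    simp only [sq]
  have K2 : ∫ p : Eu d × Eu d × Eu d, co L γ j p.2.2 * κ (p.2.1 + p.2.2) ∂μ =
      ∫ v, κ v ^ 2 ∂(β.conv γ) := by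
    rw [hμ, ld_x α (β.prod γ) (fun q => co L γ j q.2 * κ (q.1 + q.2)), hκ.eq κ Bκ]
    simp only [sq]
  have K3 : ∫ p : Eu d × Eu d × Eu d, κ (p.2.1 + p.2.2) * κ (p.2.1 + p.2.2) ∂μ =
      ∫ v, κ v ^ 2 ∂(β.conv γ) := by
    have h := tri_v α β γ (co L γ j) κ Bγ hκ (fun q => κ q.1) (hκ.meas.comp measurable_fst)
      (2 * L) (fun q => hκ.bd _ cγb q.1)
    rw [← K2]
    exact h.symm
  have K5 : ∫ p : Eu d × Eu d × Eu d, m p.2.2 * m p.2.2 ∂μ = ∫ z, m z ^ 2 ∂γ := by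
    rw [hμ, ld_x α (β.prod γ) (fun q => m q.2 * m q.2), ld_x β γ (fun z => m z * m z)]
    simp only [sq]
  have K6 : ∫ p : Eu d × Eu d × Eu d, m p.2.2 * ρ (p.1 + p.2.2) ∂μ =
      ∫ u, ρ u ^ 2 ∂(α.conv γ) := by
    rw [hμ, ld_xz α β γ (fun q => m q.2 * ρ (q.1 + q.2)) ((Bm1.comp measurable_snd).mul
      (Bρ.comp (measurable_fst.add measurable_snd))), hρ.eq ρ Bρ]
    simp only [sq]
  have K7 : ∫ p : Eu d × Eu d × Eu d, ρ (p.1 + p.2.2) * ρ (p.1 + p.2.2) ∂μ =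
      ∫ u, ρ u ^ 2 ∂(α.conv γ) := by
    have hF : ld_B (fun q : Eu d × Eu d => ρ q.1) := Bρ.comp measurable_fst
    obtain ⟨hF1, C, hC⟩ := id hF
    have h := tri_u α β γ m ρ Bm1 hρ (fun q => ρ q.1) hF1 C hC
    rw [← K6]
    exact h.symm
  have IAA : ∫ p : Eu d × Eu d × Eu d, (co L γ j p.2.2 - κ (p.2.1 + p.2.2)) *
      (co L γ j p.2.2 - κ (p.2.1 + p.2.2)) ∂μ =
      (∫ z, co L γ j z ^ 2 ∂γ) - ∫ v, κ v ^ 2 ∂(β.conv γ) := by
    rw [ld_subl μ _ _ _ B3 B4 (B3.sub B4), ld_subr μ _ _ _ B3 B3 B4, ld_subr μ _ _ _ B4 B3 B4,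
      ld_comm μ (fun p : Eu d × Eu d × Eu d => κ (p.2.1 + p.2.2))
        (fun p => co L γ j p.2.2), K1, K2, K3]
    ring
  have IBB : ∫ p : Eu d × Eu d × Eu d, (m p.2.2 - ρ (p.1 + p.2.2)) *
      (m p.2.2 - ρ (p.1 + p.2.2)) ∂μ =
      (∫ z, m z ^ 2 ∂γ) - ∫ u, ρ u ^ 2 ∂(α.conv γ) := by
    rw [ld_subl μ _ _ _ B5 B6 (B5.sub B6), ld_subr μ _ _ _ B5 B5 B6, ld_subr μ _ _ _ B6 B5 B6,
      ld_comm μ (fun p : Eu d × Eu d × Eu d => ρ (p.1 + p.2.2))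
        (fun p => m p.2.2), K5, K6, K7]
    ring
  have IAB : ∫ p : Eu d × Eu d × Eu d, (co L γ j p.2.2 - κ (p.2.1 + p.2.2)) *
      (m p.2.2 - ρ (p.1 + p.2.2)) ∂μ =
      (∫ z, m z ^ 2 ∂γ) - ∫ u, ρ u ^ 2 ∂(α.conv γ) := by
    rw [hμ, ld_mean α β γ (co L γ j) κ Bγ Bκ (fun q => m q.2 - ρ (q.1 + q.2)) BG, ← hμ]
    change ∫ p : Eu d × Eu d × Eu d, m p.2.2 * (m p.2.2 - ρ (p.1 + p.2.2)) ∂μ = _
    rw [ld_subr μ _ _ _ B5 B5 B6, K5, K6]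
  have Izz : ∫ p : Eu d × Eu d × Eu d,
      ((co L γ j p.2.2 - κ (p.2.1 + p.2.2)) - (m p.2.2 - ρ (p.1 + p.2.2))) *
      ((co L γ j p.2.2 - κ (p.2.1 + p.2.2)) - (m p.2.2 - ρ (p.1 + p.2.2))) ∂μ =
      ((∫ z, co L γ j z ^ 2 ∂γ) - ∫ v, κ v ^ 2 ∂(β.conv γ)) -
        ((∫ z, m z ^ 2 ∂γ) - ∫ u, ρ u ^ 2 ∂(α.conv γ)) := by
    rw [ld_subl μ _ _ _ (B3.sub B4) (B5.sub B6) ((B3.sub B4).sub (B5.sub B6)),
      ld_subr μ _ _ _ (B3.sub B4) (B3.sub B4) (B5.sub B6),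
      ld_subr μ _ _ _ (B5.sub B6) (B3.sub B4) (B5.sub B6),
      ld_comm μ (fun p : Eu d × Eu d × Eu d => m p.2.2 - ρ (p.1 + p.2.2))
        (fun p => co L γ j p.2.2 - κ (p.2.1 + p.2.2)), IAA, IBB, IAB]
    ring
  have hsq := ld_sq μ _ _ (B1.sub B2) ((B3.sub B4).sub (B5.sub B6)) t
  have h0 : 0 ≤ ∫ p : Eu d × Eu d × Eu d, ((co L β j p.2.1 - lW (p.1 + p.2.1 + p.2.2)) +
      t * ((co L γ j p.2.2 - κ (p.2.1 + p.2.2)) - (m p.2.2 - ρ (p.1 + p.2.2)))) ^ 2 ∂μ :=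
    integral_nonneg fun p => sq_nonneg _
  rw [hsq, Iee, Iez, Izz] at h0
  have e0 : ∫ z, (co L γ j z - ad β κ z) ^ 2 ∂γ = ∫ z, m z ^ 2 ∂γ := rfl
  linarith

end Pool.Agent.LQ
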